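import Mathlib
import Pool.Agent.X3.Sieve
import Pool.Agent.Y892.UF.G2

/-!
# Linear recurrences, small automata and the real quadratic fields with unique factorisation

Let `S` be the set of the squarefree `d > 1` such that the ring of integers of `ℚ(√d)` has unique
factorisation. By genus theory a multiple `d` of a prime `p ≡ 1 mod 4` can be in `S` only if `d = p`.
It follows that over every field the linear complexity of the word formed by the first `N` values of
the indicator function of `S` is nearly as large as the largest element of `S` up to `N`, and that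
`S` has few elements up to `N` if this word has a small automatic complexity.
-/

set_option autoImplicit false

namespace Pool.Agent.Results.MP_321647_nt.LinearComplexity

open NumberField

/-- `d > 1` is squarefree and the ring of integers of a quadratic number field containing a square
root of `d` is a unique factorisation domain -/
def UniqueFactorisation (d : ℕ) : Prop :=
  1 < d ∧ Squarefree d ∧ ∃ (K : Type) (_ : Field K) (_ : NumberField K),
    Module.finrank ℚ K = 2 ∧ (∃ x : K, x ^ 2 = (d : K)) ∧ UniqueFactorizationMonoid (𝓞 K)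

/-- the word `x 1, …, x N` satisfies a linear recurrence of order `L` with coefficients in `F` -/
def Recurrent {F : Type} [Field F] (x : ℕ → F) (N L : ℕ) : Prop :=
  ∃ c : Fin L → F, ∀ n, 1 ≤ n → n + L ≤ N → x (n + L) = ∑ i : Fin L, c i * x (n + i)

open Classical in
/-- the indicator function of the radicands with unique factorisation with values in `F` -/
noncomputable def ind (F : Type) [Field F] (n : ℕ) : F := if UniqueFactorisation n then 1 else 0

/-- the number of the radicands `d ≤ N` with unique factorisation -/
noncomputable def count (N : ℕ) : ℕ := {d : ℕ | d ≤ N ∧ UniqueFactorisation d}.ncard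

/-- the word `g 1, g 2, …, g N` -/
def word (g : ℕ → Bool) (N : ℕ) : List Bool := (List.range N).map fun i => g (i + 1)

/-- the number of words of length `N` accepted by the automaton -/
noncomputable def numAccepted {σ : Type} (M : NFA Bool σ) (N : ℕ) : ℕ :=
  {w : List Bool | w ∈ M.accepts ∧ w.length = N}.ncard

/-- the number of `1 ≤ n ≤ N` for which `g n` is not the truth value of `UniqueFactorisation n` -/
noncomputable def numErrors (g : ℕ → Bool) (N : ℕ) : ℕ :=
  {n : ℕ | 1 ≤ n ∧ n ≤ N ∧ ¬ (g n = true ↔ UniqueFactorisation n)}.ncard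

/-- a radicand with unique factorisation that is divisible by a prime `p ≡ 1 mod 4` is equal to `p` -/
theorem eq_of_dvd {d p : ℕ} (hd : UniqueFactorisation d) (hp : p.Prime) (hp1 : p ≡ 1 [MOD 4])
    (hpd : p ∣ d) : d = p := by
  obtain ⟨h1, h2, K, hK1, hK2, h3, h4, h5⟩ := hd
  have hp4 : p % 4 = 1 := hp1
  rcases Pool.Agent.Y892.UF.cand_of_ufd K d h1 h2 h3 h4 h5 with h | ⟨q, hq, hq4, rfl⟩ |
    ⟨q, r, hq, hr, -, hq4, hr4, rfl⟩
  · exact ((Nat.prime_dvd_prime_iff_eq hp h).1 hpd).symm
  · exfalso
    rcases (Nat.Prime.dvd_mul hp).1 hpd with h | h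
    · rw [Nat.prime_dvd_prime_iff_eq hp Nat.prime_two] at h
      omega
    · rw [Nat.prime_dvd_prime_iff_eq hp hq] at h
      omega
  · exfalso
    rcases (Nat.Prime.dvd_mul hp).1 hpd with h | h
    · rw [Nat.prime_dvd_prime_iff_eq hp hq] at h
      omega
    · rw [Nat.prime_dvd_prime_iff_eq hp hr] at h
      omega

theorem not_mul {p t : ℕ} (hp : p.Prime) (hp1 : p ≡ 1 [MOD 4]) (ht : 2 ≤ t) :
    ¬ UniqueFactorisation (p * t) := by
  intro h
  have h1 := eq_of_dvd h hp hp1 (Dvd.intro _ rfl)
  have h2 : p * 2 ≤ p * t := Nat.mul_le_mul_left _ ht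
  have := hp.pos
  omega

/-- Let `S` be the set of the squarefree `d > 1` such that the ring of integers of `ℚ(√d)` is a unique
factorisation domain.

(1) There is a constant `c > 0` such that for every field `F`, every function `x : ℕ → F` which is zero
outside `S` and all `16 ≤ n ≤ N` with `x n ≠ 0`: if `x 1, …, x N` satisfy a linear recurrence of order
`L` over `F`, then `L ≥ c n / (log n log log n)`.

(2) In particular, over every field the linear complexity of the word formed by the first `N` values of
the indicator function of `S` is at most `n` and at least `c n / (log n log log n)`, where `n` is the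
largest element of `S` up to `N` (`n ≥ 16` for the lower bound).

(3) For every field, `S` is infinite if and only if these linear complexities are unbounded.

(4) There is a constant `C` such that for all `N ≥ 16` and all nondeterministic finite automata `M` with
`q` states: if `M` accepts a word of length `N` that differs from the indicator word of `S` in `k`
places and at most `2 ^ h` words of length `N`, then `S` has at most
`C q log N log log N (h + k + log N)` elements up to `N`. -/
theorem result :
    (∃ c : ℝ, 0 < c ∧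
      (∀ (F : Type) [Field F] (x : ℕ → F), (∀ n, x n ≠ 0 → UniqueFactorisation n) →
        ∀ n N L : ℕ, 16 ≤ n → n ≤ N → x n ≠ 0 → Recurrent x N L →
        c * (n : ℝ) / (Real.log n * Real.log (Real.log n)) ≤ L) ∧
      (∀ (F : Type) [Field F] (n N : ℕ), n ≤ N → UniqueFactorisation n →
        (∀ m, n < m → m ≤ N → ¬ UniqueFactorisation m) →
        Recurrent (ind F) N n ∧ ∀ L : ℕ, 16 ≤ n → Recurrent (ind F) N L →
          c * (n : ℝ) / (Real.log n * Real.log (Real.log n)) ≤ L)) ∧
    (∀ (F : Type) [Field F], {d : ℕ | UniqueFactorisation d}.Infinite ↔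
      ∀ L : ℕ, ∃ N : ℕ, ¬ Recurrent (ind F) N L) ∧
    (∃ C : ℝ, ∀ (σ : Type) [Fintype σ] (M : NFA Bool σ) (N h : ℕ) (g : ℕ → Bool), 16 ≤ N →
      word g N ∈ M.accepts → numAccepted M N ≤ 2 ^ h →
      (count N : ℝ) ≤ C * Fintype.card σ * (Real.log N * Real.log (Real.log N)) *
        (h + numErrors g N + Real.log N)) := by
  classical
  have hind1 : ∀ (F : Type) [Field F] (n : ℕ), UniqueFactorisation n → ind F n ≠ 0 := by
    intro F _ n hn
    unfold ind
    rw [if_pos hn]
    exact one_ne_zero
  have hind2 : ∀ (F : Type) [Field F] (n : ℕ), ind F n ≠ 0 → UniqueFactorisation n := by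
    intro F _ n hn
    by_contra hcon
    apply hn
    unfold ind
    rw [if_neg hcon]
  refine ⟨?_, ?_, ?_⟩
  · obtain ⟨c, hc, h⟩ := Pool.Agent.X3.Sieve.linear 4 1 (by norm_num) (by norm_num)
    have hx1 : ∀ (F : Type) [Field F] (x : ℕ → F), (∀ n, x n ≠ 0 → UniqueFactorisation n) →
        ∀ n N L : ℕ, 16 ≤ n → n ≤ N → x n ≠ 0 → Recurrent x N L →
        c * (n : ℝ) / (Real.log n * Real.log (Real.log n)) ≤ L := by
      intro F _ x hx n N L hn hnN hxn hrec
      refine h F x n N L ?_ hn hnN hxn hrec
      intro p hp hp1 t ht _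
      by_contra hcon
      exact not_mul hp hp1 ht (hx _ hcon)
    refine ⟨c, hc, hx1, ?_⟩
    intro F _ n N hnN hn hmax
    refine ⟨⟨fun _ => 0, fun m hm1 hm2 => ?_⟩, fun L hn16 hrec =>
      hx1 F (ind F) (hind2 F) n N L hn16 hnN (hind1 F n hn) hrec⟩
    simp only [zero_mul, Finset.sum_const_zero]
    unfold ind
    rw [if_neg (hmax _ (by omega) hm2)]
  · intro F _
    constructor
    · intro hinf L
      by_contra hcon
      push Not at hcon
      obtain ⟨y, hy⟩ : ∃ y, L ≤ Pool.Agent.X3.Sieve.cnt 4 1 y := by
        by_contra hc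
        push Not at hc
        have h1 := Pool.Agent.X3.Sieve.cnt_le 4 1 (by norm_num) (by norm_num)
        obtain ⟨C, hC, hcnt⟩ := Pool.Agent.X3.LinMult.cnt_bound
          (Pool.Agent.X3.Sieve.D_one 4 (by norm_num)) h1
        have h2 : ∀ y : ℕ, (y : ℝ) + 1 ≤ C * (Real.log ((16 * 2 ^ L : ℕ) : ℝ) *
            Real.log (Real.log ((16 * 2 ^ L : ℕ) : ℝ))) := by
          intro y
          refine hcnt (16 * 2 ^ L) y (by have := Nat.one_le_two_pow (n := L); omega) ?_
          have h3 : 2 ^ Pool.Agent.X3.Sieve.cnt 4 1 y ≤ 2 ^ L :=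
            Nat.pow_le_pow_right (by norm_num) (hc y).le
          omega
        obtain ⟨y, hy⟩ := exists_nat_gt (C * (Real.log ((16 * 2 ^ L : ℕ) : ℝ) *
            Real.log (Real.log ((16 * 2 ^ L : ℕ) : ℝ))))
        have := h2 y
        linarith
      obtain ⟨N, hN1, hN2⟩ := hinf.exists_gt (y * (L + 1) + L)
      have h3 := Pool.Agent.X3.Sieve.window 4 1 (x := ind F) (N := N) (L := L) (by
        intro p hp hp1 t ht _
        by_contra hne
        exact not_mul hp hp1 ht (hind2 F _ hne)) (hcon N) ⟨N, by omega, le_rfl, hind1 F N hN1⟩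
      have h4 : y ≤ N / (L + 1) := by
        rw [Nat.le_div_iff_mul_le (by omega)]
        omega
      have h5 : L ≤ Pool.Agent.X3.Sieve.cnt 4 1 (N / (L + 1)) :=
        hy.trans (Pool.Agent.X3.Sieve.cnt_mono 4 1 h4)
      have h6 : 2 ^ L ≤ L := (Nat.pow_le_pow_right (by norm_num) h5).trans h3
      have h7 : L < 2 ^ L := Nat.lt_two_pow_self
      omega
    · intro h hfin
      obtain ⟨B, hB⟩ := hfin.bddAbove
      obtain ⟨N, hN⟩ := h B
      apply hN
      refine ⟨fun _ => 0, fun n h1 _ => ?_⟩
      simp only [zero_mul, Finset.sum_const_zero]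
      unfold ind
      rw [if_neg]
      intro hM
      have := hB hM
      omega
  · obtain ⟨C, hC, hmain⟩ := Pool.Agent.X3.Sieve.automata 4 1 (by norm_num) (by norm_num)
    refine ⟨C, ?_⟩
    intro σ _ M N h g hN hacc hh
    obtain ⟨A, hA⟩ : ∃ A : Set ℕ, A = {i | UniqueFactorisation (i + 1)} := ⟨_, rfl⟩
    have hmem : ∀ i, i ∈ A ↔ UniqueFactorisation (i + 1) := by
      intro i
      rw [hA, Set.mem_ofPred_eq]
    have hfin : {w : List Bool | w ∈ M.accepts ∧ w.length = N}.Finite :=
      (List.finite_length_eq Bool N).subset fun w hw => hw.2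
    have h1 := hmain A (by
      intro p hp hp1 i j hi hj hpi hpj
      have h1 := eq_of_dvd ((hmem i).1 hi) hp hp1 hpi
      have h2 := eq_of_dvd ((hmem j).1 hj) hp hp1 hpj
      omega) Bool σ M N (fun i => g (i + 1)) (fun i => decide (UniqueFactorisation (i + 1))) hN (by
      intro i j hij
      rw [decide_eq_decide] at hij
      rw [hmem, hmem, hij]) (by
      rw [Pool.Agent.X3.NfaGen.seg_zero']
      exact hacc) h (numErrors g N)
      ((Finset.range N).filter fun i => ¬ (g (i + 1) = true ↔ UniqueFactorisation (i + 1))) (by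
      unfold numErrors
      rw [← Set.ncard_coe_finset]
      refine Set.ncard_le_ncard_of_injOn (fun i => i + 1) ?_ (fun i _ j _ h => by
        simpa using h) ((Set.finite_Icc 1 N).subset fun n hn => ⟨hn.1, hn.2.1⟩)
      intro i hi
      simp only [Finset.coe_filter, Finset.mem_range, Set.mem_ofPred_eq] at hi
      exact ⟨by omega, by omega, hi.2⟩) (by
      intro i hi hn
      by_contra hne
      refine hn (Finset.mem_filter.2 ⟨Finset.mem_range.2 hi, fun hiff => hne ?_⟩)
      rcases Bool.eq_false_or_eq_true (g (i + 1)) with hg | hg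
      · rw [hg]
        exact (decide_eq_true (hiff.1 hg)).symm
      · rw [hg]
        refine (decide_eq_false ?_).symm
        intro hU
        rw [hiff.2 hU] at hg
        exact absurd hg (by simp)) (by
      intro W hW
      have h1 : ((W : Set (List Bool))).ncard ≤ {w : List Bool | w ∈ M.accepts ∧ w.length = N}.ncard :=
        Set.ncard_le_ncard (fun w hw => ⟨(hW w hw).2, (hW w hw).1⟩) hfin
      rw [Set.ncard_coe_finset] at h1
      exact h1.trans hh)
    have h2 : count N ≤ (Pool.Agent.X3.NfaSidon.below A N).card := by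
      unfold count
      rw [← Set.ncard_coe_finset]
      refine Set.ncard_le_ncard_of_injOn (fun d => d - 1) ?_ ?_ (Finset.finite_toSet _)
      · intro d hd
        have hd1 : 1 < d := hd.2.1
        rw [Finset.mem_coe, Pool.Agent.X3.NfaSidon.mem_below, hmem]
        have hd2 : d ≤ N := hd.1
        have e : d - 1 + 1 = d := by omega
        show d - 1 < N ∧ UniqueFactorisation (d - 1 + 1)
        rw [e]
        exact ⟨by omega, hd.2⟩
      · intro d hd e he hde
        have hd1 : 1 < d := hd.2.1
        have he1 : 1 < e := he.2.1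
        have : d - 1 = e - 1 := hde
        omega
    have h3 : (count N : ℝ) ≤ (Pool.Agent.X3.NfaSidon.below A N).card := by exact_mod_cast h2
    exact h3.trans h1

end Pool.Agent.Results.MP_321647_nt.LinearComplexity
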