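import Mathlib
import Pool.Agent.X11.UF.An6
import Pool.Agent.X11.UF.PQ

/-!
# Failure of unique factorisation among the radicands that genus theory allows

By genus theory the ring of integers of `ℚ(√d)`, `d > 1` squarefree, can have unique factorisation only if
`d` is a prime, or twice a prime `≡ 3 mod 4`, or a product of two primes `≡ 3 mod 4`; for these `d` the class
number is odd.  We prove that this necessary condition fails to be sufficient infinitely often, with a lower
bound: at least `c X ^ (2/3) / log² X` of the products `d ≤ X` of two different primes `≡ 3 mod 4` are such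
that the class number of `ℚ(√d)` is divisible by three (so that it is odd and greater than one).

Proof.  Let `p + 27 q = 4 m³` with `m = 27 k + 1`.  The discriminant of a certain cubic polynomial
`X³ + X² + c X + e` is `p q`, and its splitting field `L` is a cyclic cubic extension of `K = ℚ(√(p q))`.
The differences of the conjugates of a root generate the unit ideal, hence every invariant ideal of `L`
comes from `K`.  If the class number of `K` were prime to three, it would follow with Hilbert's Theorem 90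
that all units of `L` of relative norm one are of the form `σ v / v` with units `v`; this contradicts
Dirichlet's unit theorem (`L` is totally real of degree six).  The primes `p ≡ q ≡ 3 mod 4` with
`p + 27 q = 4 (27 k + 1)³` are counted with the theorem of the library on the von Mangoldt function along
families of integers of small additive energy.
-/

set_option autoImplicit false

namespace Pool.Agent.Results.MP_321647_nt.OddClassNumbers

open Finset NumberField Pool.Agent.X11.UF
open scoped Classical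

/-- `d = p q` with two different primes `p ≡ q ≡ 3 mod 4`. -/
def PrimePair (d : ℕ) : Prop :=
  ∃ p q : ℕ, p.Prime ∧ q.Prime ∧ p < q ∧ p % 4 = 3 ∧ q % 4 = 3 ∧ d = p * q

/-- Three divides the class number of every quadratic field containing a square root of `d`, and its ring
of integers does not have unique factorisation. -/
def Fails (d : ℕ) : Prop :=
  ∀ (K : Type) [Field K] [NumberField K], Module.finrank ℚ K = 2 → (∃ x : K, x ^ 2 = (d : K)) →
    3 ∣ Nat.card (ClassGroup (𝓞 K)) ∧ ¬ UniqueFactorizationMonoid (𝓞 K)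

lemma not_ufd (K : Type) [Field K] [NumberField K] (h : 3 ∣ Fintype.card (ClassGroup (𝓞 K))) :
    ¬ UniqueFactorizationMonoid (𝓞 K) := by
  intro hU
  have hP : IsPrincipalIdealRing (𝓞 K) :=
    IsPrincipalIdealRing.of_isDedekindDomain_of_uniqueFactorizationMonoid (𝓞 K)
  rw [← card_classGroup_eq_one_iff] at hP
  rw [hP] at h
  omega

/-- the radicand -/
def rad (a : Σ _ : ℕ, ℕ) : ℕ := a.2 * (108 * JJ a.1 + 4 - 27 * a.2)

lemma pair_props {A k n : ℕ} (h : n ∈ PP A k) : n.Prime ∧ (108 * JJ k + 4 - 27 * n).Prime ∧ n % 4 = 3 ∧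
    (108 * JJ k + 4 - 27 * n) % 4 = 3 ∧ 31 ≤ 108 * JJ k + 4 - 27 * n ∧
    108 * JJ k + 4 - 27 * n ≠ n := by
  unfold PP at h
  rw [mem_filter, mem_FF] at h
  obtain ⟨⟨h1, h2⟩, h3, h4⟩ := h
  have h5 := h4.two_le
  refine ⟨h3, h4, h2, by omega, by omega, ?_⟩
  intro h6
  have h7 : 28 * n = 4 * (27 * JJ k + 1) := by omega
  have h8 : 27 * JJ k + 1 = (27 * k + 1) ^ 3 := by unfold JJ; ring
  have h9 : 7 * n = (27 * k + 1) ^ 3 := by omega
  have h10 : 7 ∣ 27 * k + 1 := Nat.Prime.dvd_of_dvd_pow (by norm_num) (Dvd.intro n h9)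
  obtain ⟨t, ht⟩ := h10
  rw [ht] at h9
  have h11 : n = 49 * t ^ 3 := by
    have : (7 * t) ^ 3 = 7 * (49 * t ^ 3) := by ring
    omega
  rw [h11] at h3
  have h12 : 7 ∣ 49 * t ^ 3 := ⟨7 * t ^ 3, by ring⟩
  have h13 := (Nat.prime_dvd_prime_iff_eq (by norm_num : Nat.Prime 7) h3).1 h12
  have h14 : t ^ 3 ≠ 0 := by
    intro h0
    rw [h0] at h13
    omega
  have : 1 ≤ t ^ 3 := Nat.one_le_iff_ne_zero.2 h14
  omega

lemma rad_good {A k n : ℕ} (h : n ∈ PP A k) : PrimePair (rad ⟨k, n⟩) ∧ Fails (rad ⟨k, n⟩) := by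
  obtain ⟨h1, h2, h3, h4, h5, h6⟩ := pair_props h
  constructor
  · rcases lt_or_gt_of_ne h6 with h | h
    · exact ⟨_, _, h2, h1, h, h4, h3, by unfold rad; exact mul_comm _ _⟩
    · exact ⟨_, _, h1, h2, h, h3, h4, rfl⟩
  · intro K _ _ hK hx
    obtain ⟨x, hx⟩ := hx
    have key : 3 ∣ Fintype.card (ClassGroup (𝓞 K)) := by
      refine pq_three_dvd hK x (p := 108 * JJ k + 4 - 27 * n) (q := n) (k := k) h2 h1 h6 h5 ?_ ?_
      · have h8 : 27 * (JJ k : ℤ) + 1 = (27 * k + 1) ^ 3 := by unfold JJ; push_cast; ring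
        rw [← h8, Nat.cast_sub (by omega)]
        push_cast
        ring
      · rw [hx]
        unfold rad
        rw [mul_comm]
    refine ⟨?_, not_ufd K key⟩
    rwa [Nat.card_eq_fintype_card]

lemma JJ_inj {k k' : ℕ} (h : JJ k = JJ k') : k = k' := by
  have hm : StrictMono JJ := by
    apply strictMono_nat_of_lt_succ
    intro n
    unfold JJ
    have h1 : n ^ 3 ≤ (n + 1) ^ 3 := Nat.pow_le_pow_left (by omega) 3
    have h2 : n ^ 2 ≤ (n + 1) ^ 2 := Nat.pow_le_pow_left (by omega) 2
    omega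
  exact hm.injective h

lemma fiber_card (x A b : ℕ) :
    (((Icc 1 x).sigma (fun k => PP A k)).filter (fun a => rad a = b)).card ≤ 2 := by
  rcases (((Icc 1 x).sigma (fun k => PP A k)).filter (fun a => rad a = b)).eq_empty_or_nonempty with h0 | ⟨a0, ha0⟩
  · rw [h0]; simp
  · rw [mem_filter, mem_sigma] at ha0
    obtain ⟨p1, p2, -, -, -, p6⟩ := pair_props ha0.1.2
    have hb : b.primeFactors.card ≤ 2 := by
      rw [← ha0.2]
      unfold rad
      rw [Nat.primeFactors_mul p1.ne_zero p2.ne_zero, p1.primeFactors, p2.primeFactors]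
      exact (card_union_le _ _).trans (by simp)
    refine le_trans ?_ hb
    apply card_le_card_of_injOn (fun a => a.2)
    · intro a ha
      rw [mem_coe, mem_filter, mem_sigma] at ha
      obtain ⟨q1, q2, -⟩ := pair_props ha.1.2
      rw [mem_coe, Nat.mem_primeFactors]
      refine ⟨q1, ⟨_, ha.2.symm⟩, ?_⟩
      rw [← ha.2]
      exact mul_ne_zero q1.ne_zero q2.ne_zero
    · rintro ⟨k, n⟩ ha ⟨k', n'⟩ ha' h
      rw [mem_coe, mem_filter, mem_sigma] at ha ha'
      simp only at h
      subst h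
      obtain ⟨q1, q2, -⟩ := pair_props ha.1.2
      obtain ⟨q1', q2', -⟩ := pair_props ha'.1.2
      have e : rad ⟨k, n⟩ = rad ⟨k', n⟩ := ha.2.trans ha'.2.symm
      unfold rad at e
      have e2 := Nat.eq_of_mul_eq_mul_left q1.pos e
      simp only at e2
      have h1 := q2.two_le
      have h2 := q2'.two_le
      simp only at h1 h2
      have e3 : JJ k = JJ k' := by omega
      rw [JJ_inj e3]

/-- At least `c X ^ (2/3) / log² X` of the products `d ≤ X` of two different primes `≡ 3 mod 4` are such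
that the class number of `ℚ(√d)` is divisible by three and unique factorisation fails. -/
theorem result : ∃ c : ℝ, 0 < c ∧ ∃ X₀ : ℕ, ∀ X : ℕ, X₀ ≤ X →
    c * (X : ℝ) ^ (2 / 3 : ℝ) / Real.log X ^ 2 ≤
      (((Icc 1 X).filter (fun d => PrimePair d ∧ Fails d)).card : ℝ) := by
  obtain ⟨x0, h0⟩ := count_pairs
  refine ⟨1 / (4 * 52 ^ 4), by positivity, (26 * (x0 + 3)) ^ 6, fun X hX => ?_⟩
  obtain ⟨y, hy⟩ : ∃ y : ℝ, y = (X : ℝ) ^ (1 / 6 : ℝ) := ⟨_, rfl⟩
  have hX1 : 1 ≤ X := le_trans (Nat.one_le_pow _ _ (by omega)) hX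
  have hXr : (0 : ℝ) < X := by exact_mod_cast hX1
  have hy0 : 0 < y := by rw [hy]; positivity
  have hy6 : y ^ 6 = X := by
    rw [hy, ← Real.rpow_natCast, ← Real.rpow_mul hXr.le]
    norm_num
  have hylow : 26 * ((x0 : ℝ) + 3) ≤ y := by
    have h1 : (26 * ((x0 : ℝ) + 3)) ^ 6 ≤ y ^ 6 := by
      rw [hy6]
      exact_mod_cast hX
    exact le_of_pow_le_pow_left₀ (by norm_num) hy0.le h1
  set x := ⌊y / 26⌋₊ with hx
  have hx1 : (x : ℝ) ≤ y / 26 := Nat.floor_le (by positivity)
  have hx2 : y / 26 < x + 1 := Nat.lt_floor_add_one _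
  have hxx0 : x0 + 3 ≤ x := by
    apply Nat.le_floor
    push_cast
    rw [le_div_iff₀ (by norm_num)]
    linarith
  have hxr : (3 : ℝ) ≤ x := by exact_mod_cast (by omega : 3 ≤ x)
  have hxy : y / 52 ≤ x := by linarith
  have hX6 : (26 * x) ^ 6 ≤ X := by
    have h1 : (26 * (x : ℝ)) ^ 6 ≤ X := by
      rw [← hy6]
      apply pow_le_pow_left₀ (by positivity)
      linarith
    exact_mod_cast h1
  have key := h0 x (by omega)
  set A := 4000 * x ^ 3 with hA
  set S := (Icc 1 x).sigma (fun k => PP A k) with hS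
  have hScard : (S.card : ℝ) = ∑ k ∈ Icc 1 x, ((PP A k).card : ℝ) := by
    rw [hS, card_sigma]
    push_cast
    rfl
  have hmaps : ∀ a ∈ S, rad a ∈ (Icc 1 X).filter (fun d => PrimePair d ∧ Fails d) := by
    rintro ⟨k, n⟩ ha
    rw [hS, mem_sigma, mem_Icc] at ha
    obtain ⟨hk, hn⟩ := ha
    have hg := rad_good hn
    obtain ⟨q1, q2, -⟩ := pair_props hn
    rw [mem_filter, mem_Icc]
    refine ⟨⟨?_, ?_⟩, hg⟩
    · exact Nat.one_le_iff_ne_zero.2 (mul_ne_zero q1.ne_zero q2.ne_zero)
    · have hJ := JJ_le hk.2 hk.1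
      simp only at hJ
      have h1 := q2.two_le
      simp only at h1
      have h2 : n ≤ 4 * (813 * x ^ 3) := by omega
      have h3 : 108 * JJ k + 4 - 27 * n ≤ 108 * (813 * x ^ 3) + 4 * x ^ 3 := by
        have : 1 ≤ x ^ 3 := Nat.one_le_pow _ _ (by omega)
        omega
      calc rad ⟨k, n⟩ ≤ (4 * (813 * x ^ 3)) * (108 * (813 * x ^ 3) + 4 * x ^ 3) := Nat.mul_le_mul h2 h3
        _ = 285551616 * x ^ 6 := by ring
        _ ≤ (26 * x) ^ 6 := by
            rw [mul_pow]
            exact Nat.mul_le_mul_right _ (by norm_num)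
        _ ≤ X := hX6
  have hle := card_le_mul_card_image_of_maps_to hmaps 2 (fun b _ => fiber_card x A b)
  have hle' : (S.card : ℝ) ≤ 2 * (((Icc 1 X).filter (fun d => PrimePair d ∧ Fails d)).card : ℝ) := by
    exact_mod_cast hle
  rw [hScard] at hle'
  have hlogx : 0 < Real.log x := Real.log_pos (by linarith)
  have hlogX : Real.log x ≤ Real.log X := by
    apply Real.log_le_log (by linarith)
    have h1 : x ≤ X := by
      refine le_trans ?_ hX6
      calc x ≤ 26 * x := by omega
        _ ≤ (26 * x) ^ 6 := Nat.le_self_pow (by norm_num) _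
    exact_mod_cast h1
  have hX23 : (X : ℝ) ^ (2 / 3 : ℝ) = y ^ 4 := by
    rw [hy, ← Real.rpow_natCast, ← Real.rpow_mul hXr.le]
    norm_num
  have hfin : 1 / (4 * 52 ^ 4) * (X : ℝ) ^ (2 / 3 : ℝ) / Real.log X ^ 2 ≤ (x : ℝ) ^ 4 / (2 * Real.log x ^ 2) / 2 := by
    rw [hX23]
    have h1 : (y / 52) ^ 4 ≤ (x : ℝ) ^ 4 := pow_le_pow_left₀ (by positivity) hxy 4
    have h2 : Real.log x ^ 2 ≤ Real.log X ^ 2 := pow_le_pow_left₀ hlogx.le hlogX 2
    have e1 : 1 / (4 * 52 ^ 4) * y ^ 4 / Real.log X ^ 2 = ((y / 52) ^ 4) / (4 * Real.log X ^ 2) := by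
      field_simp
    have e2 : (x : ℝ) ^ 4 / (2 * Real.log x ^ 2) / 2 = (x : ℝ) ^ 4 / (4 * Real.log x ^ 2) := by
      field_simp
      ring
    rw [e1, e2]
    apply div_le_div₀ (by positivity) h1 (by positivity)
    linarith
  linarith

end Pool.Agent.Results.MP_321647_nt.OddClassNumbers
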