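import Pool.Agent.X11.RG.Main

/-!
# Every proper subgroup of the class group misses many small prime ideals

The ring of integers of the field of the square root of the squarefree number `d > 1` can have unique
factorisation only if `d` is a prime, or twice a prime `≡ 3 mod 4`, or a product of two primes
`≡ 3 mod 4`; call these `d` candidates.  Fix `a > 2`.  For 100% of the candidates `d`, and for 100% of
the members of each of the three families, the following holds for the field `K` of the square root of
`d`.  Consider the prime ideals of `K` whose norm is a prime number at most `(log d)^a`.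

* Every subgroup `H` of the class group misses at least
  `(log d)^(a-1) min(log m, log d / log log d) / (50 a)` of them, `m` the index of `H`.
* Any set of them that misses fewer than `(log d)^(a-1) / (100 a)` of them generates the class group.
* The ring of integers of `K` is a unique factorisation domain if and only if fewer than
  `(log d)^(a-1) / (100 a)` of them are not principal.
* At least `(log d)^(a-1) min(log h, log d / log log d) / (50 a)` of them are not principal, `h` the
  class number.
-/

set_option autoImplicit false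

namespace Pool.Agent.Results.MP_321647_nt.RobustGeneration

open Filter Finset NumberField
open scoped Classical

/-- `Q` is a prime ideal whose norm is a prime number at most `B`. -/
def Small (K : Type) [Field K] [NumberField K] (B : ℝ) (Q : nonZeroDivisors (Ideal (𝓞 K))) : Prop :=
  (Ideal.absNorm (Q : Ideal (𝓞 K))).Prime ∧ (Ideal.absNorm (Q : Ideal (𝓞 K)) : ℝ) ≤ B

/-- Every subgroup `H` of the class group misses at least `M min(log m, R)` of the prime ideals whose
norm is a prime number at most `B`, where `m` is the index of `H`. -/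
def MissedBy (K : Type) [Field K] [NumberField K] (B M R : ℝ) : Prop :=
  ∀ H : Subgroup (ClassGroup (𝓞 K)), M * min (Real.log H.index) R ≤
    Nat.card {Q : nonZeroDivisors (Ideal (𝓞 K)) // Small K B Q ∧ ClassGroup.mk0 Q ∉ H}

/-- Every set `S` that contains all but fewer than `M` of the prime ideals whose norm is a prime number
at most `B`: the classes of the members of `S` among these prime ideals generate the class group. -/
def RobustlyGenerated (K : Type) [Field K] [NumberField K] (B M : ℝ) : Prop :=
  ∀ S : Set (nonZeroDivisors (Ideal (𝓞 K))),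
    (Nat.card {Q : nonZeroDivisors (Ideal (𝓞 K)) // Small K B Q ∧ Q ∉ S} : ℝ) < M →
    Subgroup.closure (ClassGroup.mk0 '' {Q | Q ∈ S ∧ Small K B Q}) = ⊤

/-- The number of the prime ideals whose norm is a prime number at most `B` that are not principal. -/
noncomputable def nonprincipal (K : Type) [Field K] [NumberField K] (B : ℝ) : ℕ :=
  Nat.card {Q : nonZeroDivisors (Ideal (𝓞 K)) //
    Small K B Q ∧ ¬ (Q : Ideal (𝓞 K)).IsPrincipal}

/-- The property of the integer `d` in the theorem: the four statements hold for every quadratic field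
containing a square root of `d`. -/
def Good (a : ℝ) (d : ℕ) : Prop :=
  ∀ (K : Type) [Field K] [NumberField K], Module.finrank ℚ K = 2 →
    (∃ x : K, x ^ 2 = (d : K)) →
    MissedBy K ((Real.log d) ^ a) ((Real.log d) ^ (a - 1) / (50 * a))
      (Real.log d / Real.log (Real.log d)) ∧
    RobustlyGenerated K ((Real.log d) ^ a) ((Real.log d) ^ (a - 1) / (100 * a)) ∧
    (UniqueFactorizationMonoid (𝓞 K) ↔
      (nonprincipal K ((Real.log d) ^ a) : ℝ) < (Real.log d) ^ (a - 1) / (100 * a)) ∧
    (Real.log d) ^ (a - 1) / (50 * a) *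
      min (Real.log (Nat.card (ClassGroup (𝓞 K)))) (Real.log d / Real.log (Real.log d)) ≤
        nonprincipal K ((Real.log d) ^ a)

/-- `d = 2 p` with a prime `p ≡ 3 mod 4`. -/
def TwicePrime (d : ℕ) : Prop := ∃ p : ℕ, p.Prime ∧ p % 4 = 3 ∧ d = 2 * p

/-- `d = p q` with two different primes `p ≡ q ≡ 3 mod 4`. -/
def PrimePair (d : ℕ) : Prop :=
  ∃ p q : ℕ, p.Prime ∧ q.Prime ∧ p < q ∧ p % 4 = 3 ∧ q % 4 = 3 ∧ d = p * q

/-- The radicands that can have unique factorisation. -/
def Candidate (d : ℕ) : Prop := d.Prime ∨ TwicePrime d ∨ PrimePair d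

/-- The proportion of the numbers up to `X` with the property `F` that do not have the property `G`
tends to zero as `X` tends to infinity. -/
def AlmostAll (F G : ℕ → Prop) : Prop :=
  Tendsto (fun X : ℕ => (((Finset.Icc 1 X).filter (fun d => F d ∧ ¬ G d)).card : ℝ) /
    (((Finset.Icc 1 X).filter F).card : ℝ)) atTop (nhds 0)

theorem finite_small (K : Type) [Field K] [NumberField K] (B : ℝ)
    (F : nonZeroDivisors (Ideal (𝓞 K)) → Prop) :
    Finite {Q : nonZeroDivisors (Ideal (𝓞 K)) // Small K B Q ∧ F Q} := by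
  have hfin : {Q : nonZeroDivisors (Ideal (𝓞 K)) | Small K B Q ∧ F Q}.Finite := by
    refine (Ideal.finite_setOfPred_absNorm_le₀ (S := 𝓞 K) ⌊B⌋₊).subset ?_
    rintro Q ⟨⟨-, h⟩, -⟩
    exact Nat.le_floor h
  exact hfin.to_subtype

theorem card_mono (K : Type) [Field K] [NumberField K] (B : ℝ)
    (F G : nonZeroDivisors (Ideal (𝓞 K)) → Prop) (h : ∀ Q, Small K B Q → F Q → G Q) :
    Nat.card {Q : nonZeroDivisors (Ideal (𝓞 K)) // Small K B Q ∧ F Q} ≤
      Nat.card {Q : nonZeroDivisors (Ideal (𝓞 K)) // Small K B Q ∧ G Q} := by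
  have := finite_small K B G
  refine Nat.card_le_card_of_injective (fun Q => ⟨Q.1, Q.2.1, h Q.1 Q.2.1 Q.2.2⟩) ?_
  intro Q Q' hQ
  exact Subtype.ext (congrArg (fun x => x.1) hQ)

theorem good_of_rob (a : ℝ) (ha : 2 < a) (d : ℕ) (h : Pool.Agent.X11.RG.Rob a d) : Good a d := by
  obtain ⟨hl, h⟩ := h
  intro K _ _ hK hx
  obtain ⟨l, hl'⟩ : ∃ l, l = Real.log (d : ℝ) := ⟨_, rfl⟩
  rw [← hl'] at hl ⊢
  have hll : 0 < Real.log l := Real.log_pos (by linarith)
  have hR : 1 ≤ l / Real.log l := by
    rw [le_div_iff₀ hll, one_mul]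
    linarith [Real.log_le_sub_one_of_pos (by linarith : (0 : ℝ) < l)]
  have hp : 0 < l ^ (a - 1) := Real.rpow_pos_of_pos (by linarith) _
  have ha0 : 0 < a := by linarith
  have h1 : MissedBy K (l ^ a) (l ^ (a - 1) / (50 * a)) (l / Real.log l) := by
    intro H
    have h2 := h K hK hx H
    unfold Pool.Agent.X11.RG.nOut at h2
    rw [← hl'] at h2
    have e : l ^ (a - 1) / (50 * a) * min (Real.log (H.index : ℝ)) (l / Real.log l) =
        l ^ (a - 1) * min (Real.log (H.index : ℝ)) (l / Real.log l) / (50 * a) := by ring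
    rw [e]
    refine h2.trans (le_of_eq ?_)
    congr 1
    refine Nat.card_congr (Equiv.subtypeEquivRight fun Q => ?_)
    unfold Small
    tauto
  -- a proper subgroup misses many
  have hprop : ∀ H : Subgroup (ClassGroup (𝓞 K)), H ≠ ⊤ → l ^ (a - 1) / (100 * a) ≤
      Nat.card {Q : nonZeroDivisors (Ideal (𝓞 K)) // Small K (l ^ a) Q ∧ ClassGroup.mk0 Q ∉ H} := by
    intro H hH
    refine le_trans ?_ (h1 H)
    have h3 : H.index ≠ 1 := fun h4 => hH (Subgroup.index_eq_one.1 h4)
    have h4 : H.index ≠ 0 := Subgroup.FiniteIndex.index_ne_zero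
    have h5 : (2 : ℝ) ≤ H.index := by exact_mod_cast (by omega : 2 ≤ H.index)
    have h6 : (1 / 2 : ℝ) ≤ min (Real.log H.index) (l / Real.log l) := by
      apply le_min
      · have := Real.log_two_gt_d9
        have h7 : Real.log 2 ≤ Real.log H.index := Real.log_le_log (by norm_num) h5
        linarith
      · linarith
    calc l ^ (a - 1) / (100 * a) = l ^ (a - 1) / (50 * a) * (1 / 2) := by
          field_simp
          norm_num
      _ ≤ _ := by gcongr
  have hbot : ∀ Q : nonZeroDivisors (Ideal (𝓞 K)),
      ClassGroup.mk0 Q ∉ (⊥ : Subgroup (ClassGroup (𝓞 K))) ↔ ¬ (Q : Ideal (𝓞 K)).IsPrincipal := by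
    intro Q
    rw [Subgroup.mem_bot, ClassGroup.mk0_eq_one_iff]
  have hnp : nonprincipal K (l ^ a) = Nat.card {Q : nonZeroDivisors (Ideal (𝓞 K)) //
      Small K (l ^ a) Q ∧ ClassGroup.mk0 Q ∉ (⊥ : Subgroup (ClassGroup (𝓞 K)))} := by
    unfold nonprincipal
    refine Nat.card_congr (Equiv.subtypeEquivRight fun Q => ?_)
    rw [hbot]
  refine ⟨h1, ?_, ?_, ?_⟩
  · intro S hS
    by_contra hne
    have h2 := hprop _ hne
    have h3 := card_mono K (l ^ a) (fun Q => ClassGroup.mk0 Q ∉
      Subgroup.closure (ClassGroup.mk0 '' {Q | Q ∈ S ∧ Small K (l ^ a) Q})) (fun Q => Q ∉ S) (by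
        intro Q hQ hcl hQS
        exact hcl (Subgroup.subset_closure ⟨Q, ⟨hQS, hQ⟩, rfl⟩))
    have h4 : (Nat.card {Q : nonZeroDivisors (Ideal (𝓞 K)) // Small K (l ^ a) Q ∧
      ClassGroup.mk0 Q ∉ Subgroup.closure
        (ClassGroup.mk0 '' {Q | Q ∈ S ∧ Small K (l ^ a) Q})} : ℝ) ≤
      Nat.card {Q : nonZeroDivisors (Ideal (𝓞 K)) // Small K (l ^ a) Q ∧ Q ∉ S} := by
      exact_mod_cast h3
    linarith
  · constructor
    · intro hU
      have : IsPrincipalIdealRing (𝓞 K) :=
        IsPrincipalIdealRing.of_isDedekindDomain_of_uniqueFactorizationMonoid (𝓞 K)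
      have h0 : nonprincipal K (l ^ a) = 0 := by
        unfold nonprincipal
        rw [Nat.card_eq_zero]
        left
        constructor
        rintro ⟨Q, -, hQ⟩
        exact hQ (IsPrincipalIdealRing.principal _)
      rw [h0, Nat.cast_zero]
      positivity
    · intro hlt
      have htop : (⊥ : Subgroup (ClassGroup (𝓞 K))) = ⊤ := by
        by_contra hne
        have h2 := hprop _ hne
        rw [← hnp] at h2
        linarith
      have hcard : Fintype.card (ClassGroup (𝓞 K)) = 1 := by
        rw [Fintype.card_eq_one_iff]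
        refine ⟨1, fun C => ?_⟩
        have hC : C ∈ (⊤ : Subgroup (ClassGroup (𝓞 K))) := Subgroup.mem_top C
        rw [← htop, Subgroup.mem_bot] at hC
        exact hC
      have : IsPrincipalIdealRing (𝓞 K) := by
        rw [← card_classGroup_eq_one_iff]
        exact hcard
      infer_instance
  · have h2 := h1 ⊥
    rw [Subgroup.index_bot, ← hnp] at h2
    exact h2

theorem almost (F : ℕ → Prop) (a : ℝ) (ha : 2 < a)
    (h : Tendsto (fun X : ℕ => (((Finset.Ioc 0 X).filter
      (fun D => F D ∧ ¬ Pool.Agent.X11.RG.Rob a D)).card : ℝ) /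
      (((Finset.Ioc 0 X).filter F).card : ℝ)) atTop (nhds 0)) : AlmostAll F (Good a) := by
  unfold AlmostAll
  refine squeeze_zero (fun X => by positivity) (fun X => ?_) h
  have e1 : Finset.Ioc 0 X = Finset.Icc 1 X := by
    ext d
    rw [mem_Ioc, mem_Icc]
    omega
  rw [e1]
  apply div_le_div_of_nonneg_right _ (Nat.cast_nonneg _)
  have e2 : (Finset.Icc 1 X).filter (fun d => F d ∧ ¬ Good a d) ⊆
      (Finset.Icc 1 X).filter (fun D => F D ∧ ¬ Pool.Agent.X11.RG.Rob a D) := by
    intro d hd
    rw [mem_filter] at hd ⊢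
    exact ⟨hd.1, hd.2.1, fun h => hd.2.2 (good_of_rob a ha d h)⟩
  exact_mod_cast card_le_card e2

theorem result : ∀ a : ℝ, 2 < a →
    AlmostAll Candidate (Good a) ∧ AlmostAll Nat.Prime (Good a) ∧
      AlmostAll TwicePrime (Good a) ∧ AlmostAll PrimePair (Good a) := by
  intro a ha
  have h1 := Pool.Agent.X11.RG.prime_rob a ha
  have h2 := Pool.Agent.X11.RG.two_rob a ha
  have h3 := Pool.Agent.X11.RG.semi_rob a ha
  refine ⟨?_, ?_, almost _ a ha h2, almost _ a ha h3⟩
  · apply almost _ a ha
    have key := Pool.Agent.Y892.UF.union_lim Nat.Prime Pool.Agent.Y892.UF.Two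
      Pool.Agent.Y892.UF.Semi (fun D => ¬ Pool.Agent.X11.RG.Rob a D)
      (by convert h1) (by convert h2) (by convert h3)
    convert key
    all_goals rfl
  · apply almost _ a ha
    convert h1

end Pool.Agent.Results.MP_321647_nt.RobustGeneration
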