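import Pool.Agent.X20.Tr.Rel
import Pool.Agent.Results.MP_321647_nt.RobustGeneration

/-!
# Class numbers of the real quadratic fields of `√⌊α n ^ c⌋`

The class numbers, and the generation of the class group by small prime ideals, for the radicands `d = ⌊α n ^ c⌋`.
From Mathlib: `dimH E`: the Hausdorff dimension; `⌊x⌋₊`: the integer part; `Finset.Icc 1 N` and `Finset.Ioc 0 N`: the
integers from `1` to `N`. From the team's `RobustGeneration` (its definitions are used as they are): `Good a d`: in the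
quadratic field `K` of `√d`, for the prime ideals whose norm is a prime at most `(log d) ^ a`: each subgroup of the
class group of index `m` misses at least `(log d) ^ (a - 1) min (log m, log d / log log d) / (50 a)` of them; each set
missing fewer than `(log d) ^ (a - 1) / (100 a)` of them generates the class group; the ring of integers is a unique
factorisation domain if and only if fewer than `(log d) ^ (a - 1) / (100 a)` of them are not principal; and a lower
bound for the number of the non-principal ones by the class number. `TwicePrime d`: `d = 2 p` with a prime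
`p ≡ 3 mod 4`; `PrimePair d`: `d = p q` with primes `p < q`, both `≡ 3 mod 4`; `Candidate d`: `d` is a prime,
a `TwicePrime` or a `PrimePair` (the radicands that can have unique factorisation).
-/

set_option autoImplicit false

namespace Pool.Agent.Results.MP_321647_nt.SparseRadicands

open Finset Filter NumberField
open Pool.Agent.X20.Tr
open Pool.Agent.Y854.PS (ms xs)
open Pool.Agent.Results.MP_321647_nt.RobustGeneration (Good TwicePrime PrimePair Candidate AlmostAll)

/-- `d > 1` is squarefree and the real quadratic field of `√d` has class number `h`. -/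
def ClassNumber (h d : ℕ) : Prop :=
  1 < d ∧ Squarefree d ∧ ∀ (K : Type) [Field K] [NumberField K], Module.finrank ℚ K = 2 →
    (∃ x : K, x ^ 2 = (d : K)) → Nat.card (ClassGroup (𝓞 K)) = h

open Classical in
/-- For each `ε > 0` and all large `N` at least `N ^ (1 - ε)` of the integers `n ≤ N` are such that `⌊α n ^ c⌋` has
the property `F`. -/
def Frequent (α c : ℝ) (F : ℕ → Prop) : Prop :=
  ∀ ε : ℝ, 0 < ε → ∃ N₀ : ℕ, ∀ N : ℕ, N₀ ≤ N →
    (N : ℝ) ^ (1 - ε) ≤ (((Icc 1 N).filter (fun n : ℕ => F ⌊α * (n : ℝ) ^ c⌋₊)).card : ℝ)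

open Classical in
/-- Among the integers `n ≤ N` such that `⌊α n ^ c⌋` has the property `F`, the share of those for which it does not
have the property `G` tends to `0` as `N` tends to infinity. -/
def AlmostAllAlong (α c : ℝ) (F G : ℕ → Prop) : Prop :=
  ∀ ε : ℝ, 0 < ε → ∃ N₀ : ℕ, ∀ N : ℕ, N₀ ≤ N →
    (((Icc 1 N).filter (fun n : ℕ => F ⌊α * (n : ℝ) ^ c⌋₊ ∧ ¬ G ⌊α * (n : ℝ) ^ c⌋₊)).card : ℝ) ≤
      ε * (((Icc 1 N).filter (fun n : ℕ => F ⌊α * (n : ℝ) ^ c⌋₊)).card : ℝ)

/-- `x / 8 log x` is larger than powers with exponent less than one -/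
lemma P3_pow (δ : ℝ) (hδ : 0 < δ) (K : ℝ) (hK : 0 < K) : ∃ X₀ : ℕ, ∀ X : ℕ, X₀ ≤ X →
    K * (X : ℝ) ^ (1 - δ) ≤ ((Pool.Agent.Y892.UF.P3 X).card : ℝ) := by
  have h1 := Pool.Agent.Y892.UF.P3_lower
  have h3 := (isLittleO_log_rpow_atTop hδ).def (show (0 : ℝ) < 1 / (8 * K) by positivity)
  have h4 := tendsto_natCast_atTop_atTop.eventually h3
  obtain ⟨X₀, h⟩ := (h1.and (h4.and (eventually_ge_atTop 2))).exists_forall_of_atTop
  refine ⟨X₀, fun X hX => ?_⟩
  obtain ⟨k1, k2, k3⟩ := h X hX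
  have hX2 : (2 : ℝ) ≤ X := by exact_mod_cast k3
  have hL : 0 < Real.log X := Real.log_pos (by linarith)
  rw [Real.norm_of_nonneg hL.le, Real.norm_of_nonneg (by positivity)] at k2
  refine le_trans ?_ k1
  rw [← mul_div_assoc, le_div_iff₀ hL]
  have hX0 : (0 : ℝ) < X := by linarith
  calc K * (X : ℝ) ^ (1 - δ) * Real.log X ≤ K * (X : ℝ) ^ (1 - δ) * (1 / (8 * K) * (X : ℝ) ^ δ) :=
        mul_le_mul_of_nonneg_left k2 (by positivity)
    _ = 1 / 8 * ((X : ℝ) ^ (1 - δ) * (X : ℝ) ^ δ) := by field_simp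
    _ = 1 / 8 * X := by
        rw [← Real.rpow_add hX0, sub_add_cancel, Real.rpow_one]

lemma card_eq (s : Finset ℕ) {p q : ℕ → Prop} {dp : DecidablePred p} {dq : DecidablePred q}
    (h : ∀ x, p x ↔ q x) : (@Finset.filter ℕ p dp s).card = (@Finset.filter ℕ q dq s).card := by
  congr 1
  ext x
  rw [mem_filter, mem_filter, h x]

lemma mem_f {s : Finset ℕ} {p : ℕ → Prop} {dp : DecidablePred p} {x : ℕ} :
    x ∈ @Finset.filter ℕ p dp s ↔ x ∈ s ∧ p x := mem_filter

open Classical in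
/-- the property that a set is not thin -/
def Many (F : ℕ → Prop) : Prop :=
  ∀ δ : ℝ, 0 < δ → ∃ X₀ : ℕ, ∀ X : ℕ, X₀ ≤ X → (X : ℝ) ^ (1 - δ) ≤ (((Icc 1 X).filter (fun d => F d)).card : ℝ)

open Classical in
lemma many_of (F : ℕ → Prop) (k : ℕ) (hk : 1 ≤ k)
    (h : ∀ X : ℕ, (Pool.Agent.Y892.UF.P3 (X / k)).card ≤ ((Icc 1 X).filter (fun d => F d)).card + 1) : Many F := by
  intro δ0 hδ0
  obtain ⟨δ, hδ⟩ : ∃ δ : ℝ, δ = min δ0 (1 / 2) := ⟨_, rfl⟩
  have hδ1 : 0 < δ := by rw [hδ]; exact lt_min hδ0 (by norm_num)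
  have hδδ : δ ≤ δ0 := by rw [hδ]; exact min_le_left _ _
  have hδh : δ ≤ 1 / 2 := by rw [hδ]; exact min_le_right _ _
  have hkR : (1 : ℝ) ≤ k := by exact_mod_cast hk
  obtain ⟨X₀, h1⟩ := P3_pow δ hδ1 (2 * (2 * k)) (by positivity)
  refine ⟨k * max X₀ 1, fun X hX => ?_⟩
  have hq1 : max X₀ 1 ≤ X / k := by
    rw [Nat.le_div_iff_mul_le (by omega), mul_comm]
    exact hX
  have h2 := h1 (X / k) ((le_max_left _ _).trans hq1)
  have hq2 : 1 ≤ X / k := (le_max_right _ _).trans hq1
  have hX1 : 1 ≤ X := hq2.trans (Nat.div_le_self _ _)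
  have hX1R : (1 : ℝ) ≤ X := by exact_mod_cast hX1
  have hqR : (1 : ℝ) ≤ ((X / k : ℕ) : ℝ) := by exact_mod_cast hq2
  have h3 : (X : ℝ) ≤ 2 * k * ((X / k : ℕ) : ℝ) := by
    have h4 : X < k * (X / k) + k := by
      have := Nat.div_add_mod X k
      have := Nat.mod_lt X (show 0 < k by omega)
      omega
    have h5 : (X : ℝ) ≤ k * ((X / k : ℕ) : ℝ) + k := by exact_mod_cast h4.le
    nlinarith
  have h4 : (X : ℝ) ^ (1 - δ) ≤ 2 * k * ((X / k : ℕ) : ℝ) ^ (1 - δ) := by
    calc (X : ℝ) ^ (1 - δ) ≤ (2 * k * ((X / k : ℕ) : ℝ)) ^ (1 - δ) :=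
          Real.rpow_le_rpow (by positivity) h3 (by linarith)
      _ = (2 * k : ℝ) ^ (1 - δ) * ((X / k : ℕ) : ℝ) ^ (1 - δ) := by
          rw [Real.mul_rpow (by positivity) (by positivity)]
      _ ≤ (2 * k : ℝ) ^ (1 : ℝ) * ((X / k : ℕ) : ℝ) ^ (1 - δ) := by
          apply mul_le_mul_of_nonneg_right _ (by positivity)
          exact Real.rpow_le_rpow_of_exponent_le (by linarith) (by linarith)
      _ = _ := by rw [Real.rpow_one]
  have h5 : ((Pool.Agent.Y892.UF.P3 (X / k)).card : ℝ) ≤ (((Icc 1 X).filter (fun d => F d)).card : ℝ) + 1 := by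
    exact_mod_cast h X
  have h6 : (1 : ℝ) ≤ (X : ℝ) ^ (1 - δ) := Real.one_le_rpow hX1R (by linarith)
  have h7 : (X : ℝ) ^ (1 - δ0) ≤ (X : ℝ) ^ (1 - δ) := Real.rpow_le_rpow_of_exponent_le hX1R (by linarith)
  linarith

open Classical in
lemma many_prime : Many Nat.Prime := by
  apply many_of Nat.Prime 1 le_rfl
  intro X
  rw [Nat.div_one]
  refine (card_le_card ?_).trans (Nat.le_succ _)
  intro p hp
  rw [Pool.Agent.Y892.UF.mem_P3] at hp
  exact mem_f.2 ⟨mem_Icc.2 ⟨hp.2.1.one_lt.le, hp.1⟩, hp.2.1⟩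

open Classical in
lemma many_cand : Many Candidate := by
  intro δ hδ
  obtain ⟨X₀, h⟩ := many_prime δ hδ
  refine ⟨X₀, fun X hX => (h X hX).trans (Nat.cast_le.2 (card_le_card ?_))⟩
  intro p hp
  have hp' := mem_f.1 hp
  exact mem_f.2 ⟨hp'.1, Or.inl hp'.2⟩

open Classical in
lemma many_two : Many TwicePrime := by
  apply many_of TwicePrime 2 (by norm_num)
  intro X
  refine le_trans (card_le_card_of_injOn (fun p => 2 * p) ?_ ?_) (Nat.le_succ _)
  · intro p hp
    rw [Finset.mem_coe, Pool.Agent.Y892.UF.mem_P3] at hp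
    rw [Finset.mem_coe, mem_filter, mem_Icc]
    have := hp.2.1.one_lt
    have h1 : 2 * p ≤ X := by
      have h0 := Nat.mul_div_le X 2
      have h00 : p ≤ X / 2 := hp.1
      linarith
    exact ⟨⟨by linarith, h1⟩, p, hp.2.1, hp.2.2, rfl⟩
  · intro p _ q _ hpq
    have : 2 * p = 2 * q := hpq
    omega

open Classical in
lemma many_pair : Many PrimePair := by
  apply many_of PrimePair 3 (by norm_num)
  intro X
  have h1 : Pool.Agent.Y892.UF.P3 (X / 3) ⊆ insert 3 ((Pool.Agent.Y892.UF.P3 (X / 3)).filter (fun q => 3 < q)) := by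
    intro q hq
    rw [mem_insert, mem_filter]
    have hq' := Pool.Agent.Y892.UF.mem_P3.1 hq
    have := hq'.2.1.two_le
    rcases Nat.lt_or_ge 3 q with h | h
    · exact Or.inr ⟨hq, h⟩
    · left
      have := hq'.2.2
      omega
  refine (card_le_card h1).trans ((card_insert_le _ _).trans (Nat.succ_le_succ ?_))
  refine card_le_card_of_injOn (fun p => 3 * p) ?_ ?_
  · intro p hp
    rw [Finset.mem_coe, mem_filter, Pool.Agent.Y892.UF.mem_P3] at hp
    rw [Finset.mem_coe, mem_filter, mem_Icc]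
    have h2 : 3 * p ≤ X := by
      have h0 := Nat.mul_div_le X 3
      have h00 : p ≤ X / 3 := hp.1.1
      linarith
    have := hp.2
    exact ⟨⟨by linarith, h2⟩, 3, p, Nat.prime_three, hp.1.2.1, hp.2, by norm_num, hp.1.2.2, rfl⟩
  · intro p _ q _ hpq
    have : 3 * p = 3 * q := hpq
    omega

open Classical in
lemma rel_of {F G : ℕ → Prop} (h : AlmostAll F G) : ∀ ε : ℝ, 0 < ε → ∃ X₀ : ℕ, ∀ X : ℕ, X₀ ≤ X →
    (((Icc 1 X).filter (fun d => F d ∧ ¬ G d)).card : ℝ) ≤ ε * (((Icc 1 X).filter (fun d => F d)).card : ℝ) := by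
  intro ε hε
  unfold RobustGeneration.AlmostAll at h
  have h1 := h.eventually (gt_mem_nhds hε)
  obtain ⟨X₀, h2⟩ := h1.exists_forall_of_atTop
  refine ⟨X₀, fun X hX => ?_⟩
  have h3 := h2 X hX
  have hsub : ((Icc 1 X).filter (fun d => F d ∧ ¬ G d)).card ≤ ((Icc 1 X).filter F).card := by
    apply card_le_card
    intro p hp
    rw [mem_filter] at hp ⊢
    exact ⟨hp.1, hp.2.1⟩
  rcases Nat.eq_zero_or_pos ((Icc 1 X).filter F).card with h4 | h4
  · rw [h4] at hsub ⊢
    have : ((Icc 1 X).filter (fun d => F d ∧ ¬ G d)).card = 0 := by omega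
    rw [this]
    simp
  · have h5 : (0 : ℝ) < (((Icc 1 X).filter F).card : ℝ) := by exact_mod_cast h4
    rw [div_lt_iff₀ h5] at h3
    convert h3.le

/-- the four families -/
def fam : Fin 4 → ℕ → Prop := ![Nat.Prime, TwicePrime, PrimePair, Candidate]

open Classical in
/-- For every real `c > 1` there are `κ > 0` and a set `E` of real numbers of Hausdorff dimension at most `1 - κ`
such that for every real `α > 0` outside `E` the integers `m(n) = ⌊α n ^ c⌋` satisfy:

* for all large `N` and ALL `h ≤ N ^ κ` the number of the `n ≤ N` for which `m(n)` is squarefree and the field of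
  `√m(n)` has class number `h` is, up to `N ^ (1 - κ)`, the number of all squarefree `d ≤ α N ^ c` whose field has
  class number `h`, counted with the weights `(1 / c) α ^ (-1 / c) d ^ (1 / c - 1)` (the density of the sequence at
  `d`);
* let `F` be one of the sets of the primes, of the numbers `2 p`, of the numbers `p q`, and of all candidates. For
  each `ε > 0` and large `N` at least `N ^ (1 - ε)` of the `m(n)`, `n ≤ N`, are in `F`, and for every rational
  `a > 2`, `Good a m(n)` holds for 100% of the `n` for which `m(n)` is in `F`. In particular for 100% of these `n` the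
  field of `√m(n)` has unique factorisation if and only if fewer than `(log m(n)) ^ (a - 1) / (100 a)` of its prime
  ideals whose norm is a prime at most `(log m(n)) ^ a` are not principal. -/
theorem result (c : ℝ) (hc : 1 < c) : ∃ κ : ℝ, 0 < κ ∧ κ < 1 ∧ ∃ E : Set ℝ, dimH E ≤ ENNReal.ofReal (1 - κ) ∧
    ∀ α : ℝ, 0 < α → α ∉ E →
      (∃ N₀ : ℕ, ∀ N : ℕ, N₀ ≤ N → ∀ h : ℕ, (h : ℝ) ≤ (N : ℝ) ^ κ →
        |(((Icc 1 N).filter (fun n : ℕ => ClassNumber h ⌊α * (n : ℝ) ^ c⌋₊)).card : ℝ) -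
          ∑ d ∈ (Ioc 0 ⌊α * (N : ℝ) ^ c⌋₊).filter (fun d : ℕ => ClassNumber h d),
            1 / c * α ^ (-(1 / c)) * (d : ℝ) ^ (1 / c - 1)| ≤ (N : ℝ) ^ (1 - κ)) ∧
      (∀ F : ℕ → Prop, (F = Nat.Prime ∨ F = TwicePrime ∨ F = PrimePair ∨ F = Candidate) →
        Frequent α c F ∧ ∀ a : ℚ, 2 < a → AlmostAllAlong α c F (Good a)) := by
  obtain ⟨κ, hκ0, hκ1, H⟩ := two_fam c hc
  obtain ⟨E, hE, h⟩ := H (fun t => ind {m | ClassNumber t m}) (fun t => ind_tri _)
    (Fin 4 ⊕ (Fin 4 × ℚ))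
    (Sum.elim (fun i => ind {m | fam i m}) (fun x => ind {m | fam x.1 m ∧ ¬ Good x.2 m}))
    (by
      rintro (a | x)
      · exact ind_tri _
      · exact ind_tri _)
  refine ⟨κ, hκ0, hκ1, E, hE, fun α hα hαE => ?_⟩
  obtain ⟨h1, _, h3⟩ := h α hα hαE
  refine ⟨?_, fun F hF => ?_⟩
  · obtain ⟨N₁, h4⟩ := h1
    refine ⟨N₁, fun N hN t ht => ?_⟩
    have h6 := (h4 N hN).2 t ht
    refine le_trans (le_of_eq ?_) h6
    congr 1
    congr 1
    · rw [sum_ind {m : ℕ | ClassNumber t m}]
      rfl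
    · rw [sum_filter]
      apply sum_congr rfl
      intro m _
      unfold ind wt
      show (if ClassNumber t m then _ else (0 : ℝ)) = (if ClassNumber t m then (1 : ℝ) else 0) * _
      split_ifs
      · rw [one_mul]
      · rw [zero_mul]
  · obtain ⟨i, hi, hM, hA⟩ : ∃ i : Fin 4, F = fam i ∧ Many F ∧ ∀ a : ℝ, 2 < a → AlmostAll F (Good a) := by
      rcases hF with rfl | rfl | rfl | rfl
      · exact ⟨0, rfl, many_prime, fun a ha => (RobustGeneration.result a ha).2.1⟩
      · exact ⟨1, rfl, many_two, fun a ha => (RobustGeneration.result a ha).2.2.1⟩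
      · exact ⟨2, rfl, many_pair, fun a ha => (RobustGeneration.result a ha).2.2.2⟩
      · exact ⟨3, rfl, many_cand, fun a ha => (RobustGeneration.result a ha).1⟩
    have hC1 : Cmp c α κ (ind {m | F m}) := by
      rw [hi]
      exact h3 (Sum.inl i)
    refine ⟨?_, fun a ha => ?_⟩
    · intro ε hε
      have h4 := thin_pow hc hα hκ0 (B := {m | F m}) hC1 (fun δ hδ => by
        obtain ⟨X₀, h5⟩ := hM δ hδ
        exact ⟨X₀, fun X hX => (h5 X hX).trans (le_of_eq rfl)⟩) ε hε
      exact h4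
    · have hC2 : Cmp c α κ (ind {m | F m ∧ ¬ Good a m}) := by
        rw [hi]
        exact h3 (Sum.inr (i, a))
      have h5 := rel hc hα hκ0 hκ1.le (B := {m | F m ∧ ¬ Good a m}) (F := {m | F m}) hC2 hC1
        (fun ε hε => by
          obtain ⟨X₀, h6⟩ := rel_of (hA a (by exact_mod_cast ha)) ε hε
          refine ⟨X₀, fun X hX => ?_⟩
          have h7 := h6 X hX
          refine le_trans (le_of_eq (congrArg Nat.cast (card_eq (Icc 1 X) (fun x => Iff.rfl))))
            (h7.trans (le_of_eq (congrArg (fun y => ε * y) (congrArg Nat.cast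
              (card_eq (Icc 1 X) (fun x => Iff.rfl)))))))
        (fun δ hδ => by
          obtain ⟨X₀, h6⟩ := hM δ hδ
          exact ⟨X₀, fun X hX => h6 X hX⟩)
      intro ε hε
      obtain ⟨N₀, h6⟩ := h5 ε hε
      refine ⟨N₀, fun N hN => ?_⟩
      have h7 := h6 N hN
      refine le_trans (le_of_eq (congrArg Nat.cast (card_eq (Icc 1 N) (fun x => ?_))))
        (h7.trans (le_of_eq (congrArg (fun y => ε * y) (congrArg Nat.cast
          (card_eq (Icc 1 N) (fun x => ?_)))))) <;> exact Iff.rfl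

end Pool.Agent.Results.MP_321647_nt.SparseRadicands
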